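import Mathlib

namespace Pool.Agent.Results.MP_be01c1_co.Counterexample

/-- The Gilbert graph `G₀` on `𝔽_q ^ n`: `u ∼ u'` iff `1 ≤ w (u - u') ≤ d - 1`. -/
def gilbert (q n d : ℕ) : SimpleGraph (Fin n → ZMod q) where
  Adj u u' := 1 ≤ hammingNorm (u - u') ∧ hammingNorm (u - u') ≤ d - 1
  symm := ⟨fun u u' h => by
    have e : hammingNorm (u' - u) = hammingNorm (u - u') := by
      simp only [hammingNorm, Pi.sub_apply, ne_eq, sub_eq_zero, eq_comm (a := u' _)]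
    rw [e]
    exact h⟩
  loopless := ⟨fun u h => by simp at h⟩

/-- `λ (v) = ∑_{1 ≤ w (u) ≤ d - 1} z ^ ⟨u, v⟩` with `z = exp (2 π i / q)`. -/
noncomputable def eig (q n d : ℕ) [NeZero q] (v : Fin n → ZMod q) : ℂ :=
  ∑ u ∈ Finset.univ.filter (fun u : Fin n → ZMod q => 1 ≤ hammingNorm u ∧ hammingNorm u ≤ d - 1),
    Complex.exp (2 * Real.pi * Complex.I / q) ^ (u ⬝ᵥ v).val

/-- The hyperplane `H₀ (v)`. -/
def hyper {q n : ℕ} (v : Fin n → ZMod q) : Set (Fin n → ZMod q) := {u | u ⬝ᵥ v = 0}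

abbrev W := Fin 5 → ZMod 3

def S : List W := [![0, 0, 0, 0, 1], ![0, 0, 0, 0, 2], ![0, 0, 0, 1, 0], ![0, 0, 0, 1, 1], ![0, 0, 0, 1, 2], ![0, 0, 0, 2, 0], ![0, 0, 0, 2, 1], ![0, 0, 0, 2, 2], ![0, 0, 1, 0, 0], ![0, 0, 1, 0, 1], ![0, 0, 1, 0, 2], ![0, 0, 1, 1, 0], ![0, 0, 1, 2, 0], ![0, 0, 2, 0, 0], ![0, 0, 2, 0, 1], ![0, 0, 2, 0, 2], ![0, 0, 2, 1, 0], ![0, 0, 2, 2, 0], ![0, 1, 0, 0, 0], ![0, 1, 0, 0, 1], ![0, 1, 0, 0, 2], ![0, 1, 0, 1, 0], ![0, 1, 0, 2, 0], ![0, 1, 1, 0, 0], ![0, 1, 2, 0, 0], ![0, 2, 0, 0, 0], ![0, 2, 0, 0, 1], ![0, 2, 0, 0, 2], ![0, 2, 0, 1, 0], ![0, 2, 0, 2, 0], ![0, 2, 1, 0, 0], ![0, 2, 2, 0, 0], ![1, 0, 0, 0, 0], ![1, 0, 0, 0, 1], ![1, 0, 0, 0, 2], ![1, 0, 0, 1, 0], ![1, 0, 0, 2, 0], ![1, 0, 1, 0, 0], ![1, 0, 2, 0, 0], ![1, 1, 0, 0, 0], ![1, 2, 0, 0, 0], ![2, 0, 0, 0, 0], ![2, 0, 0, 0, 1], ![2, 0, 0, 0, 2], ![2, 0, 0, 1, 0], ![2, 0,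 0, 2, 0], ![2, 0, 1, 0, 0], ![2, 0, 2, 0, 0], ![2, 1, 0, 0, 0], ![2, 2, 0, 0, 0]]

def S2 : List W := [![0, 0, 0, 1, 2], ![0, 0, 0, 2, 1], ![0, 0, 1, 0, 2], ![0, 0, 1, 2, 0], ![0, 0, 2, 0, 1], ![0, 0, 2, 1, 0], ![0, 1, 0, 0, 2], ![0, 1, 0, 2, 0], ![0, 1, 2, 0, 0], ![0, 2, 0, 0, 1], ![0, 2, 0, 1, 0], ![0, 2, 1, 0, 0], ![1, 0, 0, 0, 0], ![2, 0, 0, 0, 0]]

theorem hS : Finset.univ.filter (fun u : W => 1 ≤ hammingNorm u ∧ hammingNorm u ≤ 3 - 1) =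
    S.toFinset := by decide +kernel

theorem hSnd : S.Nodup := by decide +kernel

def cnt (v : W) (x : ZMod 3) : ℕ := S.countP fun u => u ⬝ᵥ v = x

noncomputable def z : ℂ := Complex.exp (2 * Real.pi * Complex.I / (3 : ℕ))

theorem hz : 1 + z + z ^ 2 = 0 := by
  have h := (Complex.isPrimitiveRoot_exp 3 (by norm_num)).geom_sum_eq_zero (by norm_num)
  simpa [Finset.sum_range_succ, z] using h

theorem sum_list (v : W) (L : List W) : (L.map fun u => z ^ (u ⬝ᵥ v).val).sum =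
    (L.countP fun u => u ⬝ᵥ v = 0 : ℕ) + (L.countP fun u => u ⬝ᵥ v = 1 : ℕ) * z +
      (L.countP fun u => u ⬝ᵥ v = 2 : ℕ) * z ^ 2 := by
  induction L with
  | nil => simp
  | cons a L ih =>
    simp only [List.map_cons, List.sum_cons, List.countP_cons, ih]
    generalize a ⬝ᵥ v = x
    have v0 : (0 : ZMod 3).val = 0 := rfl
    have v1 : (1 : ZMod 3).val = 1 := rfl
    have v2 : (2 : ZMod 3).val = 2 := rfl
    have hx : x = 0 ∨ x = 1 ∨ x = 2 := by revert x; decide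
    rcases hx with rfl | rfl | rfl
    · rw [v0, if_pos (by decide), if_neg (by decide), if_neg (by decide)]; push_cast; ring
    · rw [v1, if_neg (by decide), if_pos (by decide), if_neg (by decide)]; push_cast; ring
    · rw [v2, if_neg (by decide), if_neg (by decide), if_pos (by decide)]; push_cast; ring

theorem cnt_facts : ∀ v : W, cnt v 1 = cnt v 2 ∧ cnt v 1 ≤ cnt v 0 + 4 := by decide +kernel

theorem eig_eq (v : W) : eig 3 5 3 v = (((cnt v 0 : ℝ) - cnt v 1 : ℝ) : ℂ) := by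
  have h := sum_list v S
  unfold eig
  rw [hS, List.sum_toFinset _ hSnd]
  change (S.map fun u => z ^ (u ⬝ᵥ v).val).sum = _
  rw [h]
  change (cnt v 0 : ℂ) + (cnt v 1 : ℂ) * z + (cnt v 2 : ℂ) * z ^ 2 = _
  rw [← (cnt_facts v).1]
  push_cast
  linear_combination (cnt v 1 : ℂ) * hz

def A (a b : W) : Prop := 1 ≤ hammingNorm (a - b) ∧ hammingNorm (a - b) ≤ 3 - 1

instance (a b : W) : Decidable (A a b) := inferInstanceAs (Decidable (_ ∧ _))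

theorem hS2 : ∀ s : W, s ⬝ᵥ ![0, 1, 1, 1, 1] = 0 → 1 ≤ hammingNorm s ∧ hammingNorm s ≤ 3 - 1 →
    s ∈ S2 := by decide +kernel

theorem noclique : ∀ a ∈ S2, ∀ b ∈ S2, A a b → ∀ c ∈ S2, A a c → A b c → ∀ d ∈ S2, A a d →
    A b d → A c d → False := by decide +kernel

/-- Already for `t = 0`, two vectors giving the least eigenvalue can give non-isomorphic
hyperplane sections (`q = 3`, `n = 5`, `d = 3`). -/
theorem result : ¬ ∀ (q n d : ℕ) [Fact q.Prime], 1 ≤ n → 2 ≤ d → gilbert q n d ≠ ⊥ →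
    ∀ (m : ℝ) (v v' : Fin n → ZMod q), IsLeast {r : ℝ | ∃ u, eig q n d u = r} m →
      eig q n d v = m → eig q n d v' = m →
      Nonempty ((gilbert q n d).induce (hyper v) ≃g (gilbert q n d).induce (hyper v')) := by
  intro h
  have e1 : eig 3 5 3 ![0, 0, 1, 1, 1] = ((-4 : ℝ) : ℂ) := by
    rw [eig_eq, show cnt ![0, 0, 1, 1, 1] 0 = 14 by decide +kernel,
      show cnt ![0, 0, 1, 1, 1] 1 = 18 by decide +kernel]
    norm_num
  have e2 : eig 3 5 3 ![0, 1, 1, 1, 1] = ((-4 : ℝ) : ℂ) := by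
    rw [eig_eq, show cnt ![0, 1, 1, 1, 1] 0 = 14 by decide +kernel,
      show cnt ![0, 1, 1, 1, 1] 1 = 18 by decide +kernel]
    norm_num
  obtain ⟨φ⟩ := @h 3 5 3 ⟨Nat.prime_three⟩ (by norm_num) (by norm_num)
    (fun hb => by
      have : (gilbert 3 5 3).Adj ![1, 0, 0, 0, 0] 0 := by
        show A _ _
        decide +kernel
      rw [hb] at this
      exact this)
    (-4) ![0, 0, 1, 1, 1] ![0, 1, 1, 1, 1] ⟨⟨_, e1⟩, by
      rintro r ⟨u, hu⟩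
      rw [eig_eq, Complex.ofReal_inj] at hu
      have : (cnt u 1 : ℝ) ≤ cnt u 0 + 4 := by exact_mod_cast (cnt_facts u).2
      linarith⟩ e1 e2
  let p : Fin 5 → hyper (q := 3) ![0, 0, 1, 1, 1] := fun i =>
    ⟨![![0, 0, 0, 0, 0], ![1, 0, 0, 0, 0], ![2, 0, 0, 0, 0], ![0, 1, 0, 0, 0], ![0, 2, 0, 0, 0]] i,
      by show _ ⬝ᵥ _ = 0; revert i; decide +kernel⟩
  have hp : ∀ i j, i ≠ j → A (p i).1 (p j).1 := by decide +kernel
  have hx : ∀ i j, i ≠ j → A (φ (p i)).1 (φ (p j)).1 := fun i j hij =>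
    φ.map_rel_iff.2 (hp i j hij)
  have hm : ∀ i, i ≠ 0 → (φ (p i)).1 - (φ (p 0)).1 ∈ S2 := by
    intro i hi
    refine hS2 _ ?_ (hx i 0 hi)
    rw [sub_dotProduct, show (φ (p i)).1 ⬝ᵥ _ = 0 from (φ (p i)).2,
      show (φ (p 0)).1 ⬝ᵥ _ = 0 from (φ (p 0)).2, sub_zero]
  have ha : ∀ i j, i ≠ j → A ((φ (p i)).1 - (φ (p 0)).1) ((φ (p j)).1 - (φ (p 0)).1) := by
    intro i j hij
    unfold A
    rw [sub_sub_sub_cancel_right]
    exact hx i j hij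
  exact noclique _ (hm 1 (by decide)) _ (hm 2 (by decide)) (ha 1 2 (by decide)) _
    (hm 3 (by decide)) (ha 1 3 (by decide)) (ha 2 3 (by decide)) _ (hm 4 (by decide))
    (ha 1 4 (by decide)) (ha 2 4 (by decide)) (ha 3 4 (by decide))

end Pool.Agent.Results.MP_be01c1_co.Counterexample
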